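import Mathlib

/-!
# A benzenoid system with a hexagon of ring bond order 3 (MP_64a46a_co, Q1)

The regular hexagonal lattice has vertex set `ℤ × ℤ × Bool`.  Its hexagonal faces are indexed by
`ℤ × ℤ`: take the points `x * e + y * f` of the triangular lattice spanned by two vectors `e`, `f`
of equal length at an angle of 120 degrees, and let the face `(x, y)` be the hexagon centred at
`x * e + y * f`.  The six corners of the face `(x, y)` are listed counterclockwise by `corner`.

A benzenoid system is given by a cycle of this lattice.  Its hexagons are the faces enclosed by the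
cycle, its graph consists of the cycle together with the corners and sides of these hexagons, its
Kekulé structures are the perfect matchings of this graph, and the ring bond order of a face is the
sum of the Pauling bond orders of its six sides.

We exhibit a benzenoid system with nine hexagons and a Kekulé structure in which one hexagon has
ring bond order equal to 3.
-/

namespace Pool.Agent.Results.MP_64a46a_co.BenzeneUnit

/-- The vertices of the regular hexagonal lattice. The third coordinate is the colour. -/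
abbrev Vert : Type := ℤ × ℤ × Bool

/-- The vertex `u = (x, y, false)` has the three neighbours `(x, y, true)`, `(x, y - 1, true)` and
`(x + 1, y, true)`. -/
def Bond (u v : Vert) : Prop :=
  u.2.2 = false ∧ v.2.2 = true ∧
    ((v.1 = u.1 ∧ v.2.1 = u.2.1) ∨ (v.1 = u.1 ∧ v.2.1 = u.2.1 - 1) ∨
      (v.1 = u.1 + 1 ∧ v.2.1 = u.2.1))

instance : DecidableRel Bond := fun u v => by unfold Bond; infer_instance

/-- The regular hexagonal lattice, as a graph. -/
def hexLattice : SimpleGraph Vert where
  Adj u v := Bond u v ∨ Bond v u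
  symm := ⟨fun _ _ h => h.symm⟩
  loopless := ⟨fun u h => by
    rcases h with h | h <;> · have h1 := h.1; have h2 := h.2.1; rw [h1] at h2; cases h2⟩

instance : DecidableRel hexLattice.Adj := fun u v => by
  unfold hexLattice; simp only; infer_instance

/-- The six corners of the hexagonal face `Q`, in counterclockwise order. -/
def corner (Q : ℤ × ℤ) (i : Fin 6) : Vert :=
  match i with
  | 0 => (Q.1, Q.2, false)
  | 1 => (Q.1, Q.2, true)
  | 2 => (Q.1 - 1, Q.2, false)
  | 3 => (Q.1 - 1, Q.2 - 1, true)
  | 4 => (Q.1 - 1, Q.2 - 1, false)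
  | 5 => (Q.1, Q.2 - 1, true)

/-- The six sides of the hexagonal face `Q` (indices are added modulo 6). -/
def side (Q : ℤ × ℤ) (i : Fin 6) : Sym2 Vert := s(corner Q i, corner Q (i + 1))

/-- A benzenoid system is given by its boundary, a cycle of the regular hexagonal lattice. -/
structure BenzenoidSystem where
  /-- a vertex of the boundary -/
  base : Vert
  /-- the boundary -/
  boundary : hexLattice.Walk base base
  /-- the boundary is a cycle -/
  isCycle : boundary.IsCycle

/-- `B.Step Q R`: the faces `Q` and `R` have a common side which is not on the boundary of `B`. -/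
def BenzenoidSystem.Step (B : BenzenoidSystem) (Q R : ℤ × ℤ) : Prop :=
  ∃ i j, side Q i = side R j ∧ side Q i ∉ B.boundary.edges

/-- The face `Q` lies inside the boundary of `B`: only finitely many faces can be reached from `Q`
by passing from face to face through sides not on the boundary.  These faces are the hexagons
of `B`. -/
def BenzenoidSystem.IsHexagon (B : BenzenoidSystem) (Q : ℤ × ℤ) : Prop :=
  {R | Relation.ReflTransGen B.Step Q R}.Finite

theorem corner_adj (Q : ℤ × ℤ) (i : Fin 6) : hexLattice.Adj (corner Q i) (corner Q (i + 1)) := by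
  obtain ⟨x, y⟩ := Q
  fin_cases i <;> simp [hexLattice, Bond, corner]

/-- The graph of `B`: the boundary cycle together with everything inside, that is, the vertices and
edges of the boundary and the corners and sides of the hexagons of `B`. -/
def BenzenoidSystem.graph (B : BenzenoidSystem) : hexLattice.Subgraph where
  verts := {v | v ∈ B.boundary.support ∨ ∃ Q, B.IsHexagon Q ∧ ∃ i, v = corner Q i}
  Adj u v := s(u, v) ∈ B.boundary.edges ∨ ∃ Q, B.IsHexagon Q ∧ ∃ i, s(u, v) = side Q i
  adj_sub := by
    rintro u v (h | ⟨Q, -, i, h⟩)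
    · exact B.boundary.adj_of_mem_edges h
    · have := corner_adj Q i
      rw [← SimpleGraph.mem_edgeSet] at this ⊢
      rw [h]; exact this
  edge_vert := by
    rintro u v (h | ⟨Q, hQ, i, h⟩)
    · exact Or.inl (B.boundary.fst_mem_support_of_mem_edges h)
    · refine Or.inr ⟨Q, hQ, ?_⟩
      rcases Sym2.eq_iff.1 h with h | h
      · exact ⟨i, h.1⟩
      · exact ⟨i + 1, h.1⟩
  symm := ⟨fun u v h => by rw [Sym2.eq_swap]; exact h⟩

/-- The Kekulé structures of `B`: the perfect matchings of the graph of `B`. -/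
def BenzenoidSystem.kekule (B : BenzenoidSystem) : Set hexLattice.Subgraph :=
  {M | M ≤ B.graph ∧ M.verts = B.graph.verts ∧ M.IsMatching}

/-- The number of Kekulé structures of `B`. -/
noncomputable def BenzenoidSystem.K (B : BenzenoidSystem) : ℕ := B.kekule.ncard

/-- The Pauling bond order of the edge `e` of `B`: the proportion of the Kekulé structures that
contain `e`. -/
noncomputable def BenzenoidSystem.bondOrder (B : BenzenoidSystem) (e : Sym2 Vert) : ℝ :=
  ({M ∈ B.kekule | e ∈ M.edgeSet}.ncard : ℝ) / (B.K : ℝ)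

/-- The ring bond order of the face `Q` in `B`: the sum of the Pauling bond orders of its sides. -/
noncomputable def BenzenoidSystem.ringBondOrder (B : BenzenoidSystem) (Q : ℤ × ℤ) : ℝ :=
  ∑ i, B.bondOrder (side Q i)

/-! ### The faces of the lattice -/

/-- The face on the other side of side `i` of `Q`. -/
def nbr (Q : ℤ × ℤ) (i : Fin 6) : ℤ × ℤ :=
  match i with
  | 0 => (Q.1 + 1, Q.2 + 1)
  | 1 => (Q.1, Q.2 + 1)
  | 2 => (Q.1 - 1, Q.2)
  | 3 => (Q.1 - 1, Q.2 - 1)
  | 4 => (Q.1, Q.2 - 1)
  | 5 => (Q.1 + 1, Q.2)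

theorem side_nbr (Q : ℤ × ℤ) (i : Fin 6) : side Q i = side (nbr Q i) (i + 3) := by
  obtain ⟨x, y⟩ := Q
  fin_cases i <;> simp [side, corner, nbr]

theorem eq_or_eq_nbr {Q R : ℤ × ℤ} {i j : Fin 6} (h : side Q i = side R j) :
    R = Q ∨ R = nbr Q i := by
  obtain ⟨x, y⟩ := Q
  obtain ⟨z, w⟩ := R
  fin_cases i <;> fin_cases j <;>
    simp [side, corner, nbr, Prod.ext_iff] at h ⊢ <;> omega

/-! ### The example -/

/-- The nine hexagons of the example. -/
def F : Finset (ℤ × ℤ) :=
  {(0, 0), (0, 1), (1, 1), (2, 2), (3, 2), (2, 3), (1, 4), (2, 4), (2, 5)}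

/-- The boundary of the example, as a list of vertices. -/
def cyc : List Vert :=
  [(0, 0, false), (1, 0, true), (1, 1, false), (2, 1, true), (2, 1, false), (3, 1, true),
    (3, 2, false), (3, 2, true), (2, 2, false), (2, 2, true), (2, 3, false), (2, 3, true),
    (2, 4, false), (2, 4, true), (2, 5, false), (2, 5, true), (1, 5, false), (1, 4, true),
    (0, 4, false), (0, 3, true), (0, 3, false), (1, 3, true), (1, 3, false), (1, 2, true),
    (1, 2, false), (1, 1, true), (0, 1, false), (0, 1, true), (-1, 1, false), (-1, 0, true),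
    (-1, 0, false), (-1, -1, true), (-1, -1, false), (0, -1, true), (0, 0, false)]

theorem cyc_chain : cyc.IsChain hexLattice.Adj := by decide

/-- The boundary of the example. -/
def bdry : hexLattice.Walk ((0, 0, false) : Vert) (0, 0, false) :=
  SimpleGraph.Walk.ofSupport cyc (by decide) cyc_chain

theorem bdry_support : bdry.support = cyc :=
  SimpleGraph.Walk.support_ofSupport _ _

theorem bdry_isCycle : bdry.IsCycle := by
  rw [SimpleGraph.Walk.isCycle_def]
  refine ⟨⟨by decide +kernel⟩, ?_, ?_⟩
  · intro h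
    have := congrArg SimpleGraph.Walk.support h
    rw [bdry_support] at this
    exact absurd this (by decide)
  · rw [bdry_support]; decide

/-- The example. -/
def ex : BenzenoidSystem := ⟨_, bdry, bdry_isCycle⟩

theorem edge_side : ∀ e ∈ bdry.edges, ∃ Q ∈ F, ∃ i, e = side Q i := by decide +kernel

theorem side_or_nbr : ∀ Q ∈ F, ∀ i, side Q i ∈ bdry.edges ∨ nbr Q i ∈ F := by decide +kernel

theorem step_mem {Q R : ℤ × ℤ} (hQ : Q ∈ F) (h : ex.Step Q R) : R ∈ F := by
  obtain ⟨i, j, hij, hi⟩ := h
  rcases eq_or_eq_nbr hij with rfl | rfl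
  · exact hQ
  · rcases side_or_nbr Q hQ i with h | h
    · exact absurd h hi
    · exact h

theorem step_nbr {Q : ℤ × ℤ} (hQ : Q ∉ F) (i : Fin 6) (hR : nbr Q i ∉ F) :
    ex.Step Q (nbr Q i) := by
  refine ⟨i, i + 3, side_nbr Q i, fun h => ?_⟩
  obtain ⟨R, hR', j, hj⟩ := edge_side _ h
  rcases eq_or_eq_nbr hj with h | h
  · exact hQ (h ▸ hR')
  · exact hR (h ▸ hR')

theorem reach_mem {Q R : ℤ × ℤ} (hQ : Q ∈ F) (h : Relation.ReflTransGen ex.Step Q R) : R ∈ F := by
  induction h with
  | refl => exact hQ
  | tail _ h ih => exact step_mem ih h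

theorem free_row {Q : ℤ × ℤ} (hQ : Q ∉ F) :
    (∀ n : ℕ, (Q.1 + n, Q.2) ∉ F) ∨ (∀ n : ℕ, (Q.1 - n, Q.2) ∉ F) := by
  obtain ⟨x, y⟩ := Q
  by_contra! hcon
  obtain ⟨⟨n, hn⟩, ⟨m, hm⟩⟩ := hcon
  simp only [F, Finset.mem_insert, Finset.mem_singleton, Prod.mk.injEq] at hQ hn hm
  omega

theorem isHexagon_iff (Q : ℤ × ℤ) : ex.IsHexagon Q ↔ Q ∈ F := by
  constructor
  · intro h
    by_contra hQ
    rcases free_row hQ with hr | hr
    · refine Set.infinite_of_injective_forall_mem (f := fun n : ℕ => ((Q.1 + n, Q.2) : ℤ × ℤ))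
        ?_ ?_ h
      · intro a b hab
        simpa using hab
      · intro n
        induction n with
        | zero => simpa using Relation.ReflTransGen.refl
        | succ n ih =>
          refine Relation.ReflTransGen.tail ih ?_
          have := step_nbr (hr n) 5 (by simpa [nbr, add_assoc] using hr (n + 1))
          simpa [nbr, add_assoc] using this
    · refine Set.infinite_of_injective_forall_mem (f := fun n : ℕ => ((Q.1 - n, Q.2) : ℤ × ℤ))
        ?_ ?_ h
      · intro a b hab
        simpa using hab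
      · intro n
        induction n with
        | zero => simpa using Relation.ReflTransGen.refl
        | succ n ih =>
          refine Relation.ReflTransGen.tail ih ?_
          have := step_nbr (hr n) 2 (by simpa [nbr, sub_sub] using hr (n + 1))
          simpa [nbr, sub_sub] using this
  · intro hQ
    exact (F.finite_toSet).subset fun R hR => reach_mem hQ hR

theorem ncard_hexagons : {Q | ex.IsHexagon Q}.ncard = 9 := by
  have : {Q | ex.IsHexagon Q} = (F : Set (ℤ × ℤ)) := by
    ext Q; simpa using isHexagon_iff Q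
  rw [this, Set.ncard_coe_finset]; decide

/-- The vertices of the example. -/
def VF : Finset Vert := F.biUnion fun Q => Finset.univ.image (corner Q)

theorem cyc_sub : ∀ v ∈ cyc, v ∈ VF := by decide +kernel

theorem verts_ex : ex.graph.verts = (VF : Set Vert) := by
  ext v
  simp only [BenzenoidSystem.graph, Set.mem_ofPred_eq, isHexagon_iff, SetLike.mem_coe]
  constructor
  · rintro (h | ⟨Q, hQ, i, rfl⟩)
    · exact cyc_sub v (by rw [← bdry_support]; exact h)
    · exact Finset.mem_biUnion.2 ⟨Q, hQ, Finset.mem_image.2 ⟨i, Finset.mem_univ _, rfl⟩⟩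
  · intro h
    obtain ⟨Q, hQ, h⟩ := Finset.mem_biUnion.1 h
    obtain ⟨i, -, rfl⟩ := Finset.mem_image.1 h
    exact Or.inr ⟨Q, hQ, i, rfl⟩

theorem adj_ex {u v : Vert} : ex.graph.Adj u v ↔ ∃ Q ∈ F, ∃ i, s(u, v) = side Q i := by
  simp only [BenzenoidSystem.graph, isHexagon_iff]
  constructor
  · rintro (h | ⟨Q, hQ, i, h⟩)
    · exact edge_side _ h
    · exact ⟨Q, hQ, i, h⟩
  · rintro ⟨Q, hQ, i, h⟩
    exact Or.inr ⟨Q, hQ, i, h⟩

/-- The double bonds of a Kekulé structure of the example, black end first. -/
def dbl : List (Vert × Vert) :=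
  [((-1, -1, false), (0, -1, true)), ((-1, 0, false), (-1, -1, true)),
    ((-1, 1, false), (-1, 0, true)), ((0, 0, false), (0, 0, true)), ((0, 1, false), (0, 1, true)),
    ((0, 3, false), (0, 3, true)), ((0, 4, false), (1, 4, true)), ((1, 1, false), (1, 0, true)),
    ((1, 2, false), (1, 1, true)), ((1, 3, false), (1, 2, true)), ((1, 4, false), (1, 3, true)),
    ((1, 5, false), (2, 5, true)), ((2, 1, false), (3, 1, true)), ((2, 2, false), (2, 1, true)),
    ((2, 3, false), (2, 2, true)), ((2, 4, false), (2, 3, true)), ((2, 5, false), (2, 4, true)),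
    ((3, 2, false), (3, 2, true))]

/-- The double bonds in both directions. -/
def dbl2 : List (Vert × Vert) := dbl ++ dbl.map Prod.swap

theorem dbl2_swap : ∀ p ∈ dbl2, p.swap ∈ dbl2 := by decide +kernel

theorem dbl2_fst : ∀ p ∈ dbl2, p.1 ∈ VF := by decide +kernel

theorem dbl2_side : ∀ p ∈ dbl2, ∃ Q ∈ F, ∃ i, s(p.1, p.2) = side Q i := by decide +kernel

theorem dbl2_cover : ∀ v ∈ VF, ∃ p ∈ dbl2, p.1 = v := by decide +kernel

theorem dbl2_inj : ∀ p ∈ dbl2, ∀ q ∈ dbl2, p.1 = q.1 → p.2 = q.2 := by decide +kernel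

/-- A Kekulé structure of the example. -/
def M0 : hexLattice.Subgraph where
  verts := (VF : Set Vert)
  Adj u v := (u, v) ∈ dbl2
  adj_sub := by
    intro u v h
    exact ex.graph.adj_sub (adj_ex.2 (dbl2_side _ h))
  edge_vert := by
    intro u v h
    exact dbl2_fst _ h
  symm := ⟨fun u v h => dbl2_swap _ h⟩

theorem M0_mem : M0 ∈ ex.kekule := by
  refine ⟨⟨?_, ?_⟩, ?_, ?_⟩
  · rw [verts_ex]; exact subset_rfl
  · intro u v h
    exact adj_ex.2 (dbl2_side _ h)
  · rw [verts_ex]; rfl
  · intro v hv
    obtain ⟨p, hp, rfl⟩ := dbl2_cover v hv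
    exact ⟨p.2, hp, fun w hw => dbl2_inj _ hw _ hp rfl⟩

theorem finite_kekule : ex.kekule.Finite := by
  classical
  refine Set.Finite.of_injOn (f := fun M : hexLattice.Subgraph =>
    (VF ×ˢ VF).filter fun p => M.Adj p.1 p.2) (t := ((VF ×ˢ VF).powerset : Set _)) ?_ ?_
    (Finset.finite_toSet _)
  · intro M _
    exact Finset.mem_coe.2 (Finset.mem_powerset.2 (Finset.filter_subset _ _))
  · intro M hM N hN h
    refine SimpleGraph.Subgraph.ext ?_ ?_
    · rw [hM.2.1, hN.2.1]
    · funext u v
      have key : ∀ M' ∈ ex.kekule, M'.Adj u v →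
          (u, v) ∈ VF ×ˢ VF := by
        intro M' hM' h'
        refine Finset.mem_product.2 ⟨?_, ?_⟩
        · have := M'.edge_vert h'
          rw [hM'.2.1, verts_ex] at this; exact this
        · have := M'.edge_vert h'.symm
          rw [hM'.2.1, verts_ex] at this; exact this
      have h2 := Finset.ext_iff.1 h (u, v)
      simp only [Finset.mem_filter] at h2
      refine propext ⟨fun h' => (h2.1 ⟨key M hM h', h'⟩).2, fun h' => (h2.2 ⟨key N hN h', h'⟩).2⟩

theorem one_le_K : 1 ≤ ex.K :=
  (Set.ncard_pos finite_kekule).2 ⟨M0, M0_mem⟩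

/-! ### The cut argument -/

/-- If all partners of the vertices of `S` lie in `T` and `S` and `T` have equally many elements,
then every vertex of `T` has its partner in `S`. -/
theorem cut {M : hexLattice.Subgraph} (hM : M.IsMatching) (S T : Finset Vert)
    (hS : ∀ v ∈ S, v ∈ M.verts) (hcl : ∀ v ∈ S, ∀ w, M.Adj v w → w ∈ T)
    (hcard : T.card ≤ S.card) : ∀ w ∈ T, ∃ v ∈ S, M.Adj v w := by
  classical
  choose! f hf using fun v (hv : v ∈ S) => (hM (hS v hv)).exists
  have hinj : Set.InjOn f S := by
    intro a ha b hb hab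
    have h1 := (hf a ha).symm
    have h2 := (hf b hb).symm
    rw [← hab] at h2
    exact (hM (M.edge_vert h1)).unique h1 h2
  have hsub : S.image f ⊆ T := by
    intro w hw
    obtain ⟨v, hv, rfl⟩ := Finset.mem_image.1 hw
    exact hcl v hv _ (hf v hv)
  have heq : S.image f = T :=
    Finset.eq_of_subset_of_card_le hsub (by rw [Finset.card_image_of_injOn hinj]; exact hcard)
  intro w hw
  rw [← heq] at hw
  obtain ⟨v, hv, rfl⟩ := Finset.mem_image.1 hw
  exact ⟨v, hv, hf v hv⟩

/-- Neighbours in the example, read off from the sides of its hexagons. -/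
theorem closed {M : hexLattice.Subgraph} (hM : M ≤ ex.graph) (S T : Finset Vert)
    (h : ∀ Q ∈ F, ∀ i, (corner Q i ∈ S → corner Q (i + 1) ∈ T) ∧
      (corner Q (i + 1) ∈ S → corner Q i ∈ T)) : ∀ v ∈ S, ∀ w, M.Adj v w → w ∈ T := by
  intro v hv w hw
  obtain ⟨Q, hQ, i, hi⟩ := adj_ex.1 (hM.2 hw)
  rcases Sym2.eq_iff.1 hi with ⟨rfl, rfl⟩ | ⟨rfl, rfl⟩
  · exact (h Q hQ i).1 hv
  · exact (h Q hQ i).2 hv

/-- White vertices around the hexagons `(0, 0)`, `(0, 1)`, `(1, 1)`. -/
def S1 : Finset Vert :=
  {(-1, -1, true), (-1, 0, true), (0, -1, true), (0, 0, true), (0, 1, true), (1, 0, true)}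

/-- The neighbours of the vertices in `S1`. -/
def T1 : Finset Vert :=
  {(-1, -1, false), (-1, 0, false), (-1, 1, false), (0, 0, false), (0, 1, false), (1, 1, false)}

/-- Black vertices around the hexagons `(1, 4)`, `(2, 4)`, `(2, 5)`. -/
def S2 : Finset Vert :=
  {(0, 3, false), (0, 4, false), (1, 4, false), (1, 5, false), (2, 3, false), (2, 4, false),
    (2, 5, false)}

/-- The neighbours of the vertices in `S2`. -/
def T2 : Finset Vert :=
  {(0, 3, true), (1, 3, true), (1, 4, true), (2, 2, true), (2, 3, true), (2, 4, true),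
    (2, 5, true)}

theorem S1_sub : ∀ v ∈ S1, v ∈ VF := by decide +kernel

theorem S2_sub : ∀ v ∈ S2, v ∈ VF := by decide +kernel

theorem no_cut1 {M : hexLattice.Subgraph} (hM : M ∈ ex.kekule) {v : Vert}
    (h : M.Adj v (1, 1, false)) : v ∈ S1 := by
  have hv : ∀ v ∈ VF, v ∈ M.verts := by
    intro v hv; rw [hM.2.1, verts_ex]; exact hv
  obtain ⟨u, hu, hadj⟩ := cut hM.2.2 S1 T1 (fun v h => hv v (S1_sub v h))
    (closed hM.1 S1 T1 (by decide +kernel)) (by decide) (1, 1, false) (by decide)
  have := (hM.2.2 (M.edge_vert h.symm)).unique h.symm hadj.symm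
  rw [this]; exact hu

theorem no_cut2 {M : hexLattice.Subgraph} (hM : M ∈ ex.kekule) {v : Vert}
    (h : M.Adj v (2, 2, true)) : v ∈ S2 := by
  have hv : ∀ v ∈ VF, v ∈ M.verts := by
    intro v hv; rw [hM.2.1, verts_ex]; exact hv
  obtain ⟨u, hu, hadj⟩ := cut hM.2.2 S2 T2 (fun v h => hv v (S2_sub v h))
    (closed hM.1 S2 T2 (by decide +kernel)) (by decide) (2, 2, true) (by decide)
  have := (hM.2.2 (M.edge_vert h.symm)).unique h.symm hadj.symm
  rw [this]; exact hu

/-- The special hexagon. -/
def special : ℤ × ℤ := (3, 2)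

theorem corner_mem : ∀ i, corner special i ∈ VF := by decide +kernel

theorem corner_ne : ∀ i, corner special i ≠ corner special (i + 1 + 1) := by decide +kernel

theorem corner_nbrs : ∀ i, ∀ Q ∈ F, ∀ j,
    (corner Q j ∈ ({corner special (i + 1)} : Finset Vert) → corner Q (j + 1) ∈
      ({corner special i, corner special (i + 1 + 1), (1, 1, false),
        (2, 2, true)} : Finset Vert)) ∧
    (corner Q (j + 1) ∈ ({corner special (i + 1)} : Finset Vert) → corner Q j ∈
      ({corner special i, corner special (i + 1 + 1), (1, 1, false),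
        (2, 2, true)} : Finset Vert)) := by
  decide +kernel

theorem corner_not_S1 : ∀ i, corner special i ∉ S1 := by decide +kernel

theorem corner_not_S2 : ∀ i, corner special i ∉ S2 := by decide +kernel

/-- In a Kekulé structure, exactly one of two consecutive sides of `special` is a double bond. -/
theorem alternate {M : hexLattice.Subgraph} (hM : M ∈ ex.kekule) (i : Fin 6) :
    M.Adj (corner special (i + 1)) (corner special (i + 1 + 1)) ↔
      ¬ M.Adj (corner special i) (corner special (i + 1)) := by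
  have hv : corner special (i + 1) ∈ M.verts := by
    rw [hM.2.1, verts_ex]; exact corner_mem _
  obtain ⟨w, hw, huni⟩ := hM.2.2 hv
  constructor
  · intro h1 h2
    exact corner_ne i ((hM.2.2 hv).unique h2.symm h1)
  · intro h1
    have h3 := closed hM.1 _ _ (corner_nbrs i) _ (Finset.mem_singleton_self _) w hw
    simp only [Finset.mem_insert, Finset.mem_singleton] at h3
    rcases h3 with rfl | rfl | rfl | rfl
    · exact absurd hw.symm h1
    · exact hw
    · exact absurd (no_cut1 hM hw) (corner_not_S1 _)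
    · exact absurd (no_cut2 hM hw) (corner_not_S2 _)

theorem mem_side {M : hexLattice.Subgraph} (i : Fin 6) :
    side special i ∈ M.edgeSet ↔ M.Adj (corner special i) (corner special (i + 1)) := by
  simp [side]

theorem ncard_add (i : Fin 6) :
    {M ∈ ex.kekule | side special i ∈ M.edgeSet}.ncard +
      {M ∈ ex.kekule | side special (i + 1) ∈ M.edgeSet}.ncard = ex.K := by
  have hf : ∀ j, {M ∈ ex.kekule | side special j ∈ M.edgeSet}.Finite := fun j =>
    finite_kekule.subset fun M hM => hM.1
  rw [BenzenoidSystem.K, ← Set.ncard_union_eq ?_ (hf _) (hf _)]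
  · congr 1
    ext M
    simp only [Set.mem_union, Set.mem_ofPred_eq, mem_side]
    constructor
    · rintro (h | h) <;> exact h.1
    · intro hM
      by_cases h1 : M.Adj (corner special i) (corner special (i + 1))
      · exact Or.inl ⟨hM, h1⟩
      · exact Or.inr ⟨hM, (alternate hM i).2 h1⟩
  · rw [Set.disjoint_left]
    intro M h1 h2
    simp only [Set.mem_ofPred_eq, mem_side] at h1 h2
    exact (alternate h1.1 i).1 h2.2 h1.2

theorem ringBondOrder_special : ex.ringBondOrder special = 3 := by
  have hK : (ex.K : ℝ) ≠ 0 := by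
    have := one_le_K
    positivity
  have e0 := ncard_add 0
  have e2 := ncard_add 2
  have e4 := ncard_add 4
  simp only [BenzenoidSystem.ringBondOrder, BenzenoidSystem.bondOrder, ← Finset.sum_div]
  rw [div_eq_iff hK, Fin.sum_univ_six]
  norm_num [Fin.ext_iff] at e0 e2 e4
  have e0' := congrArg (Nat.cast : ℕ → ℝ) e0
  have e2' := congrArg (Nat.cast : ℕ → ℝ) e2
  have e4' := congrArg (Nat.cast : ℕ → ℝ) e4
  push_cast at e0' e2' e4'
  linarith

/-- There is a benzenoid system with nine hexagons and at least one Kekulé structure that has a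
hexagon of ring bond order 3. -/
theorem result : ∃ B : BenzenoidSystem, {Q | B.IsHexagon Q}.ncard = 9 ∧ 1 ≤ B.K ∧
    ∃ Q, B.IsHexagon Q ∧ B.ringBondOrder Q = 3 :=
  ⟨ex, ncard_hexagons, one_le_K, special, (isHexagon_iff special).2 (by decide),
    ringBondOrder_special⟩

end Pool.Agent.Results.MP_64a46a_co.BenzeneUnit
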